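import Pool.Agent.Q120.LG.Stm
import Pool.Agent.Q120.GM.Free

set_option autoImplicit false

/-! Project LG (helper120), job GUP: many long gaps are unlikely in the model. -/

namespace Pool.Agent.Q184.LG

open Finset MeasureTheory Filter Pool.Agent.Q120.ET Pool.Agent.Q120.GM Pool.Agent.Q120.GE Pool.Agent.Q120.SI Pool.Agent.Q120.LG
open scoped Topology

theorem pc_block {k n : ℕ} (hk : 2 ≤ k) (hn : n ∈ block k) : pc n = 1 / Real.log n := by
  unfold pc
  rw [if_pos (three_le_of_mem_block hk hn)]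

theorem card_block (k : ℕ) : (block k).card = 2 ^ k := by
  unfold block
  rw [Nat.card_Ico, pow_succ]
  omega

section

variable {Ω : Type*} [MeasurableSpace Ω] {μ : Measure Ω} [IsProbabilityMeasure μ] {A : Ω → Set ℕ}

theorem free_le {k : ℕ} (hk : 2 ≤ k) {W : Finset ℕ} (hW : W ⊆ block k) (hA : IsModel μ pc A) :
    μ.real (free A W) ≤ Real.exp (-(W.card / ((k + 1) * Real.log 2))) := by
  rw [real_free hA]
  refine le_trans (le_of_eq ?_) (prod_window_le hk hW)
  exact prod_congr rfl fun n hn => by rw [pc_block hk (hW hn)]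

theorem gup_union {k : ℕ} (hk : 2 ≤ k) (h m : ℕ) (hA : IsModel μ pc A) :
    μ.real {ω | m ≤ ngb (tr A (block k) ω) k h} ≤
      ((2 ^ k).choose m : ℝ) * Real.exp (-(((m * h : ℕ) : ℝ) / ((k + 1) * Real.log 2))) := by
  classical
  set 𝒮 : Finset (Finset ℕ) := ((block k).powersetCard m).filter (fun S => (∀ a ∈ S, a + h < 2 ^ (k + 1)) ∧
    ∀ a ∈ S, ∀ b ∈ S, a < b → a + h < b) with h𝒮
  set W : Finset ℕ → Finset ℕ := fun S => S.biUnion (fun a => Ioc a (a + h)) with hW
  have hsub : {ω | m ≤ ngb (tr A (block k) ω) k h} ⊆ ⋃ S ∈ 𝒮, free A (W S) := by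
    intro ω hω
    have hω' : m ≤ ngb (tr A (block k) ω) k h := hω
    unfold ngb at hω'
    obtain ⟨S, hS, hSm⟩ := Finset.exists_subset_card_eq hω'
    have hSb : S ⊆ block k := fun a ha => (mem_filter.1 (hS ha)).1
    have hS1 : ∀ a ∈ S, a ∈ tr A (block k) ω ∧ a + h < 2 ^ (k + 1) ∧
        ∀ n ∈ tr A (block k) ω, ¬ (a < n ∧ n ≤ a + h) := fun a ha => (mem_filter.1 (hS ha)).2
    rw [Set.mem_iUnion₂]
    refine ⟨S, ?_, ?_⟩
    · rw [h𝒮, mem_filter, mem_powersetCard]
      refine ⟨⟨hSb, hSm⟩, fun a ha => (hS1 a ha).2.1, fun a ha b hb hab => ?_⟩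
      by_contra h1
      exact (hS1 a ha).2.2 b (hS1 b hb).1 ⟨hab, by omega⟩
    · intro n hn hnA
      rw [hW, mem_biUnion] at hn
      obtain ⟨a, ha, hna⟩ := hn
      rw [mem_Ioc] at hna
      have h2 := hSb ha
      have h3 := (hS1 a ha).2.1
      refine (hS1 a ha).2.2 n (mem_tr.2 ⟨?_, hnA⟩) hna
      unfold block at h2 ⊢
      rw [mem_Ico] at h2 ⊢
      omega
  have hcard : (𝒮.card : ℝ) ≤ ((2 ^ k).choose m : ℝ) := by
    have h1 : 𝒮.card ≤ ((block k).powersetCard m).card := card_filter_le _ _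
    rw [card_powersetCard, card_block] at h1
    exact_mod_cast h1
  have hone : ∀ S ∈ 𝒮, μ.real (free A (W S)) ≤ Real.exp (-(((m * h : ℕ) : ℝ) / ((k + 1) * Real.log 2))) := by
    intro S hS
    rw [h𝒮, mem_filter, mem_powersetCard] at hS
    obtain ⟨⟨hS1, hS2⟩, hS3, hS4⟩ := hS
    have h1 : (W S).card = m * h := by
      rw [hW]
      simp only
      rw [card_biUnion]
      · simp only [Nat.card_Ioc, Nat.add_sub_cancel_left]
        rw [sum_const, hS2, smul_eq_mul]
      · intro a ha b hb hab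
        rw [Function.onFun, Finset.disjoint_left]
        intro n hn hn'
        rw [mem_Ioc] at hn hn'
        rcases Nat.lt_or_gt_of_ne hab with h2 | h2
        · have := hS4 a ha b hb h2
          omega
        · have := hS4 b hb a ha h2
          omega
    have h2 : W S ⊆ block k := by
      intro n hn
      rw [hW, mem_biUnion] at hn
      obtain ⟨a, ha, hna⟩ := hn
      have h3 := hS1 ha
      have h4 := hS3 a ha
      unfold block at h3 ⊢
      rw [mem_Ico] at h3 ⊢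
      rw [mem_Ioc] at hna
      omega
    have h3 := free_le hk h2 hA
    rw [h1] at h3
    exact h3
  calc μ.real {ω | m ≤ ngb (tr A (block k) ω) k h} ≤ μ.real (⋃ S ∈ 𝒮, free A (W S)) :=
        measureReal_mono hsub (measure_ne_top _ _)
    _ ≤ ∑ S ∈ 𝒮, μ.real (free A (W S)) := measureReal_biUnion_finset_le _ _
    _ ≤ ∑ _S ∈ 𝒮, Real.exp (-(((m * h : ℕ) : ℝ) / ((k + 1) * Real.log 2))) := sum_le_sum hone
    _ = 𝒮.card * Real.exp (-(((m * h : ℕ) : ℝ) / ((k + 1) * Real.log 2))) := by rw [sum_const, nsmul_eq_mul]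
    _ ≤ _ := mul_le_mul_of_nonneg_right hcard (Real.exp_pos _).le

end

theorem choose_bd (N m : ℕ) (hm : 1 ≤ m) (x : ℝ) (hx : Real.log N - Real.log m ≤ x) (hN : 1 ≤ N) :
    (N.choose m : ℝ) ≤ Real.exp (m * (x + 1)) := by
  have hm0 : (0 : ℝ) < m := by exact_mod_cast hm
  have hN0 : (0 : ℝ) < N := by exact_mod_cast hN
  have h1 : (N.choose m : ℝ) ≤ (N : ℝ) ^ m / (m.factorial : ℝ) := Nat.choose_le_pow_div m N
  have h2 := Real.pow_div_factorial_le_exp (m : ℝ) hm0.le m
  have h3 : (N : ℝ) ^ m / (m.factorial : ℝ) = ((N : ℝ) / m) ^ m * ((m : ℝ) ^ m / (m.factorial : ℝ)) := by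
    rw [div_pow]
    field_simp
  have h4 : (N : ℝ) / m ≤ Real.exp x := by
    rw [← Real.log_le_iff_le_exp (by positivity), Real.log_div hN0.ne' hm0.ne']
    exact hx
  rw [h3] at h1
  calc (N.choose m : ℝ) ≤ ((N : ℝ) / m) ^ m * ((m : ℝ) ^ m / (m.factorial : ℝ)) := h1
    _ ≤ (Real.exp x) ^ m * Real.exp m := by gcongr
    _ = Real.exp (m * (x + 1)) := by
        rw [← Real.exp_nat_mul, ← Real.exp_add]
        congr 1
        ring

theorem log2_half : (1 : ℝ) / 2 ≤ Real.log 2 := by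
  have := Real.log_two_gt_d9
  linarith

theorem log2_one : Real.log 2 ≤ 1 := by
  have := Real.log_two_lt_d9
  linarith

theorem t_GUP : J_GUP := by
  intro c β hc hβ hcβ
  have hl2 := log2_half
  have hl1 := log2_one
  have hl0 : 0 < Real.log 2 := by linarith
  set κ : ℝ := (β - (1 - c)) * Real.log 2 / 2 with hκ
  have hκ0 : 0 < κ := by
    rw [hκ]
    have : 0 < β - (1 - c) := by linarith
    positivity
  refine ⟨κ, hκ0, ?_⟩
  obtain ⟨K, hK⟩ := exists_nat_ge ((3 + c * Real.log 2) / κ)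
  filter_upwards [eventually_ge_atTop (max K 2)] with k hk Ω _ μ _ A hA
  have hk2 : 2 ≤ k := le_trans (le_max_right _ _) hk
  have hkK : K ≤ k := le_trans (le_max_left _ _) hk
  have hk2r : (2 : ℝ) ≤ k := by exact_mod_cast hk2
  have hkκ : 3 + c * Real.log 2 ≤ κ * k := by
    rw [div_le_iff₀ hκ0] at hK
    have h1 : (K : ℝ) ≤ k := by exact_mod_cast hkK
    have h2 := mul_le_mul_of_nonneg_right h1 hκ0.le
    linarith
  obtain ⟨x, hx⟩ : ∃ x : ℝ, x = (2 : ℝ) ^ (β * k) := ⟨_, rfl⟩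
  rw [← hx]
  have hx0 : 0 < x := by rw [hx]; positivity
  obtain ⟨m, hm⟩ : ∃ m : ℕ, m = ⌈x⌉₊ := ⟨_, rfl⟩
  obtain ⟨h, hh⟩ : ∃ h : ℕ, h = ⌊c * (k * Real.log 2) ^ 2⌋₊ := ⟨_, rfl⟩
  rw [← hh]
  have hset : {ω | x ≤ (ngb (tr A (block k) ω) k h : ℝ)} = {ω | m ≤ ngb (tr A (block k) ω) k h} := by
    ext ω
    simp only [Set.mem_ofPred_eq]
    rw [hm, Nat.ceil_le]
  rw [hset]
  refine (gup_union hk2 h m hA).trans ?_
  have hxm : x ≤ m := by rw [hm]; exact Nat.le_ceil x
  have hm1 : 1 ≤ m := by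
    rw [hm]
    exact Nat.one_le_ceil_iff.2 hx0
  have hm0 : (0 : ℝ) < m := by exact_mod_cast hm1
  have hlogm : β * k * Real.log 2 ≤ Real.log m := by
    have h1 := Real.log_le_log hx0 hxm
    rw [hx, Real.log_rpow (by norm_num)] at h1
    exact h1
  have hch := choose_bd (2 ^ k) m hm1 ((1 - β) * k * Real.log 2) (by
    push_cast
    rw [Real.log_pow]
    linarith) (Nat.one_le_two_pow)
  have hh1 : c * (k * Real.log 2) ^ 2 - 1 ≤ h := by
    rw [hh]
    exact (Nat.sub_one_lt_floor _).le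
  have hden : 0 < ((k : ℝ) + 1) * Real.log 2 := by positivity
  have hbr : (1 - β) * k * Real.log 2 + 1 - h / (((k : ℝ) + 1) * Real.log 2) ≤ -(κ * k) := by
    have h1 : c * Real.log 2 * (k - 1) - 2 ≤ h / (((k : ℝ) + 1) * Real.log 2) := by
      rw [le_div_iff₀ hden]
      refine le_trans ?_ hh1
      have e1 : (c * Real.log 2 * (k - 1) - 2) * (((k : ℝ) + 1) * Real.log 2) =
          c * (k * Real.log 2) ^ 2 - c * Real.log 2 ^ 2 - 2 * ((k + 1) * Real.log 2) := by ring
      rw [e1]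
      have e2 : 1 ≤ 2 * (((k : ℝ) + 1) * Real.log 2) := by nlinarith
      have e3 : 0 ≤ c * Real.log 2 ^ 2 := by positivity
      linarith
    have h2 : κ * k * 2 = (β - (1 - c)) * Real.log 2 * k := by rw [hκ]; ring
    nlinarith
  calc ((2 ^ k).choose m : ℝ) * Real.exp (-(((m * h : ℕ) : ℝ) / ((k + 1) * Real.log 2))) ≤
        Real.exp (m * ((1 - β) * k * Real.log 2 + 1)) * Real.exp (-(((m * h : ℕ) : ℝ) / ((k + 1) * Real.log 2))) :=
        mul_le_mul_of_nonneg_right hch (Real.exp_pos _).le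
    _ = Real.exp (m * ((1 - β) * k * Real.log 2 + 1 - h / (((k : ℝ) + 1) * Real.log 2))) := by
        rw [← Real.exp_add]
        congr 1
        push_cast
        ring
    _ ≤ Real.exp (m * (-(κ * k))) := by
        apply Real.exp_le_exp.2
        exact mul_le_mul_of_nonneg_left hbr hm0.le
    _ ≤ Real.exp (-(κ * k * x)) := by
        apply Real.exp_le_exp.2
        have : κ * k * x ≤ κ * k * m := mul_le_mul_of_nonneg_left hxm (by positivity)
        linarith

end Pool.Agent.Q184.LG
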