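import Pool.Agent.Q184.LG.GLO

set_option autoImplicit false

/-! Project LG (helper120), job GFO: many very long gaps. -/

namespace Pool.Agent.Q184.LG

open Finset MeasureTheory Filter Pool.Agent.Q120.ET Pool.Agent.Q120.GM Pool.Agent.Q120.GE Pool.Agent.Q120.SI Pool.Agent.Q120.LG
open scoped Topology

/-- the number of windows -/
noncomputable def mm (δ : ℝ) (k : ℕ) : ℕ := ⌊(2 : ℝ) ^ (δ * k) / (24 * k ^ 2)⌋₊

/-- the length of a space and its window -/
def LL (k : ℕ) : ℕ := k ^ 3 + 4 * k ^ 2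

/-- the spaces -/
def Jw (k j : ℕ) : Finset ℕ := Ico (2 ^ k + j * LL k) (2 ^ k + j * LL k + 4 * k ^ 2)

/-- the windows -/
def Iw (k j : ℕ) : Finset ℕ := Ico (2 ^ k + j * LL k + 4 * k ^ 2) (2 ^ k + (j + 1) * LL k)

/-- the union of the windows, in the block -/
noncomputable def II (δ : ℝ) (k : ℕ) : Finset ℕ := (range (mm δ k)).biUnion (Iw k) ∩ block k

theorem mm_le (δ : ℝ) {k : ℕ} (hk : 1 ≤ k) : (mm δ k : ℝ) * (24 * k ^ 2) ≤ (2 : ℝ) ^ (δ * k) := by
  have hk0 : (0 : ℝ) < k := by exact_mod_cast hk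
  have h1 : (mm δ k : ℝ) ≤ (2 : ℝ) ^ (δ * k) / (24 * k ^ 2) := Nat.floor_le (by positivity)
  rwa [le_div_iff₀ (by positivity)] at h1

theorem card_Iw (k j : ℕ) : (Iw k j).card = k ^ 3 := by
  unfold Iw LL
  rw [Nat.card_Ico]
  have : (j + 1) * (k ^ 3 + 4 * k ^ 2) = j * (k ^ 3 + 4 * k ^ 2) + 4 * k ^ 2 + k ^ 3 := by ring
  omega

theorem card_II (δ : ℝ) (k : ℕ) : (II δ k).card ≤ mm δ k * k ^ 3 := by
  unfold II
  calc ((range (mm δ k)).biUnion (Iw k) ∩ block k).card ≤ ((range (mm δ k)).biUnion (Iw k)).card :=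
        card_le_card inter_subset_left
    _ ≤ ∑ j ∈ range (mm δ k), (Iw k j).card := card_biUnion_le
    _ = mm δ k * k ^ 3 := by simp [card_Iw]

theorem II_sub (δ : ℝ) (k : ℕ) : II δ k ⊆ block k := inter_subset_right

theorem pc_le_two_div {k n : ℕ} (hk : 2 ≤ k) (hn : n ∈ block k) : pc n ≤ 2 / k := by
  have hk0 : (0 : ℝ) < k := by positivity
  have h2 := log2_half
  rw [pc_block hk hn, div_le_div_iff₀ _ hk0]
  · have h3 : (k : ℝ) * Real.log 2 ≤ Real.log n := by
      rw [← Real.log_pow]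
      apply Real.log_le_log (by positivity)
      unfold block at hn
      rw [mem_Ico] at hn
      exact_mod_cast hn.1
    nlinarith
  · have := one_lt_log (three_le_of_mem_block hk hn)
    linarith

theorem sum_II (δ : ℝ) {k : ℕ} (hk : 2 ≤ k) : 12 * ∑ n ∈ II δ k, pc n ≤ (2 : ℝ) ^ (δ * k) := by
  have hk0 : (0 : ℝ) < k := by positivity
  have h1 : ∑ n ∈ II δ k, pc n ≤ (II δ k).card * (2 / k : ℝ) := by
    rw [← nsmul_eq_mul]
    exact sum_le_card_nsmul _ _ _ fun n hn => pc_le_two_div hk (II_sub δ k hn)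
  have h2 : ((II δ k).card : ℝ) ≤ mm δ k * k ^ 3 := by exact_mod_cast card_II δ k
  have h3 := mm_le δ (show 1 ≤ k by omega)
  calc 12 * ∑ n ∈ II δ k, pc n ≤ 12 * ((mm δ k * k ^ 3 : ℝ) * (2 / k)) := by
        have : ((II δ k).card : ℝ) * (2 / k : ℝ) ≤ (mm δ k * k ^ 3 : ℝ) * (2 / k) :=
          mul_le_mul_of_nonneg_right h2 (by positivity)
        linarith
    _ = (mm δ k : ℝ) * (24 * k ^ 2) := by field_simp; ring
    _ ≤ _ := h3

theorem Jw_Iw {k i j : ℕ} : Disjoint (Jw k i) (Iw k j) := by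
  rw [Finset.disjoint_left]
  intro n hn hn2
  unfold Jw at hn
  unfold Iw at hn2
  rw [mem_Ico] at hn hn2
  have hL : 4 * k ^ 2 ≤ LL k := by unfold LL; omega
  rcases lt_trichotomy i j with h | h | h
  · have h1 : (i + 1) * LL k ≤ j * LL k := Nat.mul_le_mul_right _ h
    have h2 : (i + 1) * LL k = i * LL k + LL k := by ring
    omega
  · subst h
    omega
  · have h1 : (j + 1) * LL k ≤ i * LL k := Nat.mul_le_mul_right _ h
    omega

theorem Jw_II {δ : ℝ} {k i : ℕ} : Disjoint (Jw k i) (II δ k) := by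
  rw [Finset.disjoint_left]
  intro n hn hn2
  unfold II at hn2
  rw [mem_inter, mem_biUnion] at hn2
  obtain ⟨⟨j, _, hj⟩, _⟩ := hn2
  exact Finset.disjoint_left.1 Jw_Iw hn hj

theorem window_sub {δ : ℝ} {k j : ℕ} (hk : mm δ k * LL k ≤ 2 ^ k) (hj : j < mm δ k) {n : ℕ} (h1 : 2 ^ k + j * LL k ≤ n)
    (h2 : n < 2 ^ k + (j + 1) * LL k) : n ∈ block k := by
  unfold block
  rw [mem_Ico]
  have h3 : (j + 1) * LL k ≤ mm δ k * LL k := Nat.mul_le_mul_right _ hj
  have h4 : 2 ^ (k + 1) = 2 ^ k + 2 ^ k := by ring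
  constructor
  · exact le_trans (Nat.le_add_right _ _) h1
  · omega

theorem Jw_sub {δ : ℝ} {k j : ℕ} (hk : mm δ k * LL k ≤ 2 ^ k) (hj : j < mm δ k) : Jw k j ⊆ block k := by
  intro n hn
  unfold Jw at hn
  rw [mem_Ico] at hn
  refine window_sub hk hj hn.1 ?_
  have h1 : (j + 1) * LL k = j * LL k + LL k := by ring
  have hL : 4 * k ^ 2 ≤ LL k := by unfold LL; omega
  omega

/-- the good sets -/
def EE (δ : ℝ) (k : ℕ) : Set (Finset ℕ) := {T | Disjoint T (II δ k) ∧ ∀ j ∈ range (mm δ k), ¬ Disjoint T (Jw k j)}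

theorem exp_sub {k : ℕ} (hk : 2 ≤ k) {J : Finset ℕ} (hJ : J ⊆ block k) (hc : J.card = 4 * k ^ 2) :
    ∏ n ∈ J, (1 - pc n) ≤ Real.exp (-(2 * k)) := by
  have hk0 : (0 : ℝ) < k := by positivity
  have hk2 : (2 : ℝ) ≤ k := by exact_mod_cast hk
  have h1 := prod_window_le hk hJ
  have h2 : ∏ n ∈ J, (1 - pc n) = ∏ n ∈ J, (1 - 1 / Real.log n) := prod_congr rfl fun n hn => by rw [pc_block hk (hJ hn)]
  rw [h2]
  refine h1.trans (Real.exp_le_exp.2 ?_)
  rw [hc]
  push_cast
  have hl2 := log2_half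
  have hl1 := log2_one
  rw [neg_le_neg_iff, le_div_iff₀ (by positivity)]
  have h3 : ((k : ℝ) + 1) * Real.log 2 ≤ (k + 1) * 1 := mul_le_mul_of_nonneg_left hl1 (by positivity)
  nlinarith

theorem ev_small {δ : ℝ} (hδ : δ < 1) : ∀ᶠ k : ℕ in atTop, mm δ k * LL k ≤ 2 ^ k := by
  filter_upwards [ev_cube (show 0 < 1 - δ by linarith) 1, eventually_ge_atTop 2] with k hk hk2
  have hk0 : (0 : ℝ) < k := by positivity
  have hk2r : (2 : ℝ) ≤ k := by exact_mod_cast hk2
  have h1 := mm_le δ (show 1 ≤ k by omega)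
  have h2 : ((LL k : ℕ) : ℝ) ≤ 24 * k ^ 2 * ((k : ℝ) + 1) ^ 3 := by
    unfold LL
    push_cast
    have h3 : (k : ℝ) + 4 ≤ 24 * ((k : ℝ) + 1) ^ 3 := by
      have : (1 : ℝ) ≤ ((k : ℝ) + 1) ^ 2 := by nlinarith
      nlinarith
    calc (k : ℝ) ^ 3 + 4 * k ^ 2 = k ^ 2 * (k + 4) := by ring
      _ ≤ k ^ 2 * (24 * ((k : ℝ) + 1) ^ 3) := mul_le_mul_of_nonneg_left h3 (by positivity)
      _ = _ := by ring
  have h4 : ((mm δ k * LL k : ℕ) : ℝ) ≤ (2 : ℝ) ^ k := by
    push_cast
    calc (mm δ k : ℝ) * LL k ≤ mm δ k * (24 * k ^ 2 * ((k : ℝ) + 1) ^ 3) := mul_le_mul_of_nonneg_left h2 (by positivity)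
      _ = mm δ k * (24 * k ^ 2) * (1 * ((k : ℝ) + 1) ^ 3) := by ring
      _ ≤ (2 : ℝ) ^ (δ * k) * (2 : ℝ) ^ ((1 - δ) * k) := mul_le_mul h1 hk (by positivity) (by positivity)
      _ = (2 : ℝ) ^ k := by
        rw [← Real.rpow_add (by norm_num), ← Real.rpow_natCast]
        congr 1
        ring
  exact_mod_cast h4

theorem ev_many {δ ε : ℝ} (hδ : 0 < δ) (hε : 0 < ε) : ∀ᶠ k : ℕ in atTop, (2 : ℝ) ^ ((δ - ε) * k) ≤ mm δ k := by
  have hθ : 0 < min δ ε := lt_min hδ hε
  filter_upwards [ev_cube hθ 48, eventually_ge_atTop 2] with k hk hk2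
  have hk0 : (0 : ℝ) < k := by positivity
  have hk2r : (2 : ℝ) ≤ k := by exact_mod_cast hk2
  have h1 : (2 : ℝ) ^ (δ * k) / (24 * k ^ 2) < mm δ k + 1 := Nat.lt_floor_add_one _
  have h2 : (2 : ℝ) ^ ((δ - ε) * k) + 1 ≤ 2 * (2 : ℝ) ^ ((δ - min δ ε) * k) := by
    have e1 : (2 : ℝ) ^ ((δ - ε) * k) ≤ (2 : ℝ) ^ ((δ - min δ ε) * k) := by
      apply Real.rpow_le_rpow_of_exponent_le (by norm_num)
      apply mul_le_mul_of_nonneg_right _ hk0.le
      have := min_le_right δ ε
      linarith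
    have e2 : 1 ≤ (2 : ℝ) ^ ((δ - min δ ε) * k) := by
      apply Real.one_le_rpow (by norm_num)
      apply mul_nonneg _ hk0.le
      have := min_le_left δ ε
      linarith
    linarith
  have h3 : 2 * (2 : ℝ) ^ ((δ - min δ ε) * k) ≤ (2 : ℝ) ^ (δ * k) / (24 * k ^ 2) := by
    rw [le_div_iff₀ (by positivity)]
    have e3 : (2 : ℝ) ^ (δ * k) = (2 : ℝ) ^ ((δ - min δ ε) * k) * (2 : ℝ) ^ (min δ ε * k) := by
      rw [← Real.rpow_add (by norm_num)]
      congr 1
      ring
    rw [e3]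
    calc 2 * (2 : ℝ) ^ ((δ - min δ ε) * k) * (24 * k ^ 2) = (2 : ℝ) ^ ((δ - min δ ε) * k) * (48 * k ^ 2) := by ring
      _ ≤ (2 : ℝ) ^ ((δ - min δ ε) * k) * (48 * ((k : ℝ) + 1) ^ 3) := by
        apply mul_le_mul_of_nonneg_left _ (by positivity)
        have : (k : ℝ) ^ 2 ≤ ((k : ℝ) + 1) ^ 3 := by nlinarith [pow_pos hk0 2, pow_pos hk0 3]
        linarith
      _ ≤ _ := mul_le_mul_of_nonneg_left hk (by positivity)
  linarith

/-- the members of `EE` have many gaps -/
theorem gaps_of {δ : ℝ} {k : ℕ} (hk2 : 2 ≤ k) (hk : mm δ k * LL k ≤ 2 ^ k) {S : Set ℕ} {T : Finset ℕ} (hT : ∀ n, n ∈ T ↔ n ∈ block k ∧ n ∈ S)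
    (hE : T ∈ EE δ k) {C : ℝ} (hC : 4 * |C| ≤ k) : mm δ k ≤ NB S C k := by
  classical
  have hk0 : (0 : ℝ) < k := by positivity
  have hk2r : (2 : ℝ) ≤ k := by exact_mod_cast hk2
  have hne : ∀ j ∈ range (mm δ k), (T ∩ Jw k j).Nonempty := by
    intro j hj
    have := hE.2 j hj
    rwa [Finset.not_disjoint_iff_nonempty_inter] at this
  set f : ℕ → ℕ := fun j => if h : (T ∩ Jw k j).Nonempty then (T ∩ Jw k j).max' h else 0 with hf
  have hfj : ∀ j ∈ range (mm δ k), f j ∈ T ∩ Jw k j ∧ ∀ n ∈ T ∩ Jw k j, n ≤ f j := by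
    intro j hj
    have h1 : f j = (T ∩ Jw k j).max' (hne j hj) := by
      rw [hf]
      simp only
      rw [dif_pos (hne j hj)]
    rw [h1]
    exact ⟨max'_mem _ _, fun n hn => le_max' _ _ hn⟩
  unfold NB
  rw [← card_range (mm δ k)]
  apply card_le_card_of_injOn f
  · intro j hj
    have hj' : j ∈ range (mm δ k) := hj
    obtain ⟨h1, h2⟩ := hfj j hj'
    rw [mem_inter] at h1
    have h3 := (hT _).1 h1.1
    rw [mem_coe, mem_filter]
    refine ⟨h3.1, h3.2, ?_⟩
    rintro n hn ⟨hn1, hn2⟩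
    have hJ := h1.2
    unfold Jw at hJ
    rw [mem_Ico] at hJ
    rw [mem_range] at hj'
    -- the bound of the gap
    have h4 : n ≤ f j + k ^ 3 := by
      have e1 : 0 ≤ Real.log (f j) := Real.log_natCast_nonneg _
      have e2 : Real.log (f j) ≤ k + 1 := by
        have hb := h3.1
        unfold block at hb
        rw [mem_Ico] at hb
        have e3 : Real.log (f j) ≤ Real.log ((2 : ℝ) ^ (k + 1)) := by
          apply Real.log_le_log
          · have : 0 < f j := lt_of_lt_of_le (by positivity) hb.1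
            exact_mod_cast this
          · exact_mod_cast hb.2.le
        rw [Real.log_pow] at e3
        push_cast at e3
        have hl1 := log2_one
        have : ((k : ℝ) + 1) * Real.log 2 ≤ (k + 1) * 1 := mul_le_mul_of_nonneg_left hl1 (by positivity)
        linarith
      have e4 : C * Real.log (f j) ^ 2 ≤ k ^ 3 := by
        have e5 : Real.log (f j) ^ 2 ≤ (2 * k) ^ 2 := pow_le_pow_left₀ e1 (by linarith) 2
        calc C * Real.log (f j) ^ 2 ≤ |C| * Real.log (f j) ^ 2 := mul_le_mul_of_nonneg_right (le_abs_self C) (by positivity)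
          _ ≤ |C| * (2 * k) ^ 2 := mul_le_mul_of_nonneg_left e5 (abs_nonneg C)
          _ = 4 * |C| * k ^ 2 := by ring
          _ ≤ k * k ^ 2 := mul_le_mul_of_nonneg_right hC (by positivity)
          _ = k ^ 3 := by ring
      have e6 : (n : ℝ) ≤ ((f j + k ^ 3 : ℕ) : ℝ) := by
        push_cast
        linarith
      exact_mod_cast e6
    have h5 : (j + 1) * LL k = j * LL k + (k ^ 3 + 4 * k ^ 2) := by unfold LL; ring
    have h6 : n < 2 ^ k + (j + 1) * LL k := by omega
    have h7 : 2 ^ k + j * LL k ≤ n := by omega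
    have h8 : n ∈ block k := window_sub hk hj' h7 h6
    have h9 : n ∈ T := (hT n).2 ⟨h8, hn⟩
    by_cases h10 : n < 2 ^ k + j * LL k + 4 * k ^ 2
    · have := h2 n (mem_inter.2 ⟨h9, by unfold Jw; rw [mem_Ico]; exact ⟨h7, h10⟩⟩)
      omega
    · have h11 : n ∈ II δ k := by
        unfold II
        rw [mem_inter, mem_biUnion]
        refine ⟨⟨j, hj, ?_⟩, h8⟩
        unfold Iw
        rw [mem_Ico]
        exact ⟨by omega, h6⟩
      exact Finset.disjoint_left.1 hE.1 h9 h11
  · intro i hi j hj hij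
    by_contra hne'
    obtain ⟨h1, _⟩ := hfj i hi
    obtain ⟨h2, _⟩ := hfj j hj
    rw [← hij] at h2
    rw [mem_inter] at h1 h2
    have h3 := h1.2
    have h4 := h2.2
    unfold Jw at h3 h4
    rw [mem_Ico] at h3 h4
    have hL : 4 * k ^ 2 ≤ LL k := by unfold LL; omega
    rcases Nat.lt_or_gt_of_ne hne' with h | h
    · have h5 : (i + 1) * LL k ≤ j * LL k := Nat.mul_le_mul_right _ h
      have h6 : (i + 1) * LL k = i * LL k + LL k := by ring
      omega
    · have h5 : (j + 1) * LL k ≤ i * LL k := Nat.mul_le_mul_right _ h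
      have h6 : (j + 1) * LL k = j * LL k + LL k := by ring
      omega

theorem t_GFO : J_GFO := by
  classical
  intro hM hT δ hδ hδ1
  choose! P hP using fun (k : ℕ) (hk : 2 ≤ k) => hT k hk (II δ k) (II_sub δ k)
  obtain ⟨Ω, iΩ, μ, iμ, A, hA, hent, -, hE⟩ := hM P (fun _ => 1) (EE δ) (fun k hk => ⟨(hP k hk).1, (hP k hk).2.1⟩)
    (fun _ => ⟨zero_le_one, le_rfl⟩)
  have hsum : Summable (fun k => ∑ T ∈ (block k).powerset with ¬ T ∈ EE δ k, P k T) := by
    refine Summable.of_norm_bounded_eventually_nat Real.summable_exp_neg_nat ?_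
    filter_upwards [ev_small hδ1, eventually_ge_atTop 2] with k hk hk2
    have hk0 : (0 : ℝ) < k := by positivity
    have hk2r : (2 : ℝ) ≤ k := by exact_mod_cast hk2
    obtain ⟨hP0, -, -, hPJ, hPI⟩ := hP k hk2
    rw [Real.norm_of_nonneg (sum_nonneg fun T hT => hP0 T (mem_filter.1 hT).1)]
    have h1 : ∑ T ∈ (block k).powerset with ¬ T ∈ EE δ k, P k T ≤
        ∑ j ∈ range (mm δ k), ∑ T ∈ (block k).powerset with Disjoint T (Jw k j), P k T := by
      have e1 : ∀ T ∈ (block k).powerset.filter (fun T => ¬ T ∈ EE δ k),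
          P k T ≤ ∑ j ∈ range (mm δ k), if Disjoint T (Jw k j) then P k T else 0 := by
        intro T hT
        rw [mem_filter] at hT
        have e2 : ∀ j ∈ range (mm δ k), 0 ≤ (if Disjoint T (Jw k j) then P k T else 0) := by
          intro j _
          split_ifs
          · exact hP0 T hT.1
          · exact le_rfl
        by_cases h0 : P k T = 0
        · rw [h0]
          exact sum_nonneg fun j hj => by
            have := e2 j hj
            rwa [h0] at this
        have e3 := hPI T hT.1 h0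
        have e4 : ∃ j ∈ range (mm δ k), Disjoint T (Jw k j) := by
          by_contra h4
          push Not at h4
          exact hT.2 ⟨e3, h4⟩
        obtain ⟨j, hj, hd⟩ := e4
        calc P k T = if Disjoint T (Jw k j) then P k T else 0 := by rw [if_pos hd]
          _ ≤ _ := single_le_sum (f := fun j => if Disjoint T (Jw k j) then P k T else 0) e2 hj
      calc ∑ T ∈ (block k).powerset with ¬ T ∈ EE δ k, P k T ≤
            ∑ T ∈ (block k).powerset with ¬ T ∈ EE δ k, ∑ j ∈ range (mm δ k), (if Disjoint T (Jw k j) then P k T else 0) :=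
            sum_le_sum e1
        _ ≤ ∑ T ∈ (block k).powerset, ∑ j ∈ range (mm δ k), (if Disjoint T (Jw k j) then P k T else 0) := by
            apply sum_le_sum_of_subset_of_nonneg (filter_subset _ _)
            intro T hT _
            apply sum_nonneg
            intro j _
            split_ifs
            · exact hP0 T hT
            · exact le_rfl
        _ = ∑ j ∈ range (mm δ k), ∑ T ∈ (block k).powerset, (if Disjoint T (Jw k j) then P k T else 0) := sum_comm
        _ = _ := by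
            refine sum_congr rfl fun j _ => ?_
            rw [sum_filter]
    have h2 : ∀ j ∈ range (mm δ k), ∑ T ∈ (block k).powerset with Disjoint T (Jw k j), P k T ≤ Real.exp (-(2 * k)) := by
      intro j hj
      rw [mem_range] at hj
      rw [hPJ (Jw k j) (Jw_sub hk hj) Jw_II]
      refine exp_sub hk2 (Jw_sub hk hj) ?_
      unfold Jw
      rw [Nat.card_Ico]
      omega
    have h3 : (mm δ k : ℝ) ≤ Real.exp k := by
      have e1 := mm_le δ (show 1 ≤ k by omega)
      have e2 : (2 : ℝ) ^ (δ * k) ≤ Real.exp k := by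
        rw [Real.rpow_def_of_pos (by norm_num)]
        apply Real.exp_le_exp.2
        have hl1 := log2_one
        have hl2 := log2_half
        calc Real.log 2 * (δ * k) ≤ 1 * (1 * k) := by
              apply mul_le_mul hl1 (mul_le_mul_of_nonneg_right hδ1.le hk0.le) (by positivity) (by norm_num)
          _ = k := by ring
      have e3 : (1 : ℝ) ≤ 24 * k ^ 2 := by nlinarith
      have e4 : (mm δ k : ℝ) * 1 ≤ mm δ k * (24 * k ^ 2) := mul_le_mul_of_nonneg_left e3 (by positivity)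
      linarith
    calc ∑ T ∈ (block k).powerset with ¬ T ∈ EE δ k, P k T ≤ ∑ j ∈ range (mm δ k), Real.exp (-(2 * k)) :=
          h1.trans (sum_le_sum h2)
      _ = mm δ k * Real.exp (-(2 * k)) := by rw [sum_const, card_range, nsmul_eq_mul]
      _ ≤ Real.exp k * Real.exp (-(2 * k)) := mul_le_mul_of_nonneg_right h3 (Real.exp_pos _).le
      _ = Real.exp (-k) := by
          rw [← Real.exp_add]
          congr 1
          ring
  refine ⟨Ω, iΩ, μ, iμ, A, hA, ?_, ?_⟩
  · intro ε hε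
    filter_upwards [eventually_ge_atTop 2] with k hk
    have h1 := hent k hk
    rw [one_mul] at h1
    have h2 := (hP k hk).2.2.1
    have h3 := sum_II δ hk
    have h4 : (2 : ℝ) ^ (δ * k) ≤ (2 : ℝ) ^ ((δ + ε) * k) := by
      apply Real.rpow_le_rpow_of_exponent_le (by norm_num)
      apply mul_le_mul_of_nonneg_right (by linarith) (by positivity)
    linarith
  · have h1 := hE (fun _ => rfl) hsum
    filter_upwards [h1] with ω hω C ε hε
    filter_upwards [hω, ev_small hδ1, ev_many hδ hε, eventually_ge_atTop 2, eventually_ge_atTop ⌈4 * |C|⌉₊] with k hk1 hk2 hk3 hk4 hk5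
    have h2 : 4 * |C| ≤ (k : ℝ) := (Nat.le_ceil _).trans (by exact_mod_cast hk5)
    have h3 := gaps_of hk4 hk2 (S := A ω) (T := tr A (block k) ω) (fun n => mem_tr) hk1 h2
    have h4 : (mm δ k : ℝ) ≤ NB (A ω) C k := by exact_mod_cast h3
    linarith

end Pool.Agent.Q184.LG
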