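import Pool.Agent.Q184.LG.GLO
import Pool.Agent.Q120.GM.Exists
import Pool.Agent.Q111.GE.LAW

set_option autoImplicit false

/-! Project LG (helper120), job GHA: Cramér's model conditioned on having no long gaps. -/

namespace Pool.Agent.Q184.LG

open Finset MeasureTheory Filter Pool.Agent.Q120.ET Pool.Agent.Q120.GM Pool.Agent.Q120.GE Pool.Agent.Q120.SI Pool.Agent.Q120.LG
open scoped Topology

theorem pc_nonneg (n : ℕ) : 0 ≤ pc n := by
  unfold pc
  split_ifs with h
  · have := one_lt_log h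
    positivity
  · exact le_rfl

theorem pc_le_one (n : ℕ) : pc n ≤ 1 := by
  unfold pc
  split_ifs with h
  · have := one_lt_log h
    rw [div_le_one (by linarith)]
    exact this.le
  · exact zero_le_one

/-- the probability in Cramér's model that all the sets `U j` are met -/
theorem meet_low {k : ℕ} (hk : 2 ≤ k) (J : Finset ℕ) (U : ℕ → Finset ℕ) (hU : ∀ j ∈ J, U j ⊆ block k)
    (F : Finset ℕ → Prop) [DecidablePred F] (hF : ∀ T : Finset ℕ, (∀ j ∈ J, ∃ n ∈ T, n ∈ U j) → F T) :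
    ∏ j ∈ J, (1 - ∏ n ∈ U j, (1 - pc n)) ≤ ∑ T ∈ (block k).powerset with F T, cramerOn (block k) T := by
  classical
  have hB : IsModel (prodMeasure (fun n : ℕ => 1 - pc n)) (fun n : ℕ => 1 - pc n) (trueSet (ι := ℕ)) :=
    isModel (fun n : ℕ => 1 - pc n) (fun n => by have := pc_le_one n; linarith) (fun n => by have := pc_nonneg n; linarith)
  set μ : Measure (ℕ → Bool) := prodMeasure (fun n : ℕ => 1 - pc n) with hμ
  have h1 := harris hB J U
  refine h1.trans ?_
  have h2 := real_event (μ := μ) (A := trueSet (ι := ℕ)) hB.meas (block k) (fun S => F (block k \ S))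
  have h3 : none (trueSet (ι := ℕ)) J U ⊆ {ω | F (block k \ tr (trueSet (ι := ℕ)) (block k) ω)} := by
    intro ω hω
    apply hF
    intro j hj
    have h4 := hω j hj
    unfold all at h4
    rw [Set.mem_ofPred_eq] at h4
    push Not at h4
    obtain ⟨n, hn, hn2⟩ := h4
    refine ⟨n, ?_, hn⟩
    rw [Finset.mem_sdiff]
    exact ⟨hU j hj hn, fun h5 => hn2 (mem_tr.1 h5).2⟩
  refine (measureReal_mono h3 (measure_ne_top _ _)).trans (le_of_eq ?_)
  rw [h2]
  refine Finset.sum_nbij' (fun S => block k \ S) (fun T => block k \ T) ?_ ?_ ?_ ?_ ?_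
  · intro S hS
    rw [mem_filter, mem_powerset] at hS ⊢
    exact ⟨Finset.sdiff_subset, hS.2⟩
  · intro T hT
    rw [mem_filter, mem_powerset] at hT ⊢
    refine ⟨Finset.sdiff_subset, ?_⟩
    rw [Finset.sdiff_sdiff_eq_self hT.1]
    exact hT.2
  · intro S hS
    rw [mem_filter, mem_powerset] at hS
    exact Finset.sdiff_sdiff_eq_self hS.1
  · intro T hT
    rw [mem_filter, mem_powerset] at hT
    exact Finset.sdiff_sdiff_eq_self hT.1
  · intro S hS
    rw [mem_filter, mem_powerset] at hS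
    rw [(Pool.Agent.Q111.GE.t_LAW (ℕ → Bool) μ (trueSet (ι := ℕ))).1 _ hB (block k) S hS.1]
    unfold cramerOn
    rw [Finset.sdiff_sdiff_eq_self hS.1, mul_comm]
    congr 1
    · refine prod_congr rfl fun n hn => ?_
      rw [← pc_block hk (Finset.sdiff_subset hn)]
      ring
    · refine prod_congr rfl fun n hn => ?_
      rw [← pc_block hk (hS.1 hn)]

/-- the length of the windows -/
noncomputable def hh (c : ℝ) (k : ℕ) : ℕ := ⌊c * (k * Real.log 2) ^ 2⌋₊

/-- the windows -/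
noncomputable def UU (c : ℝ) (k j : ℕ) : Finset ℕ :=
  if j = 0 then Ico (2 ^ k) (2 ^ k + hh c k / 3) else
    if j = 1 then Ico (2 ^ (k + 1) - hh c k / 3) (2 ^ (k + 1)) else Ioc j (j + hh c k)

noncomputable def JJ (c : ℝ) (k : ℕ) : Finset ℕ := insert 0 (insert 1 (Ico (2 ^ k) (2 ^ (k + 1) - hh c k)))

/-- all windows are met -/
def FF (c : ℝ) (k : ℕ) (T : Finset ℕ) : Prop := ∀ j ∈ JJ c k, ∃ n ∈ T, n ∈ UU c k j

theorem nogap_of {c : ℝ} (hc : 0 < c) {k : ℕ} (hk : 2 ≤ k) {T : Finset ℕ} (hT : T ⊆ block k) (hF : FF c k T) : NoGap c k T := by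
  have hk4 : 4 ≤ 2 ^ k := by
    calc 4 = 2 ^ 2 := by norm_num
      _ ≤ 2 ^ k := Nat.pow_le_pow_right (by norm_num) hk
  have hx : (hh c k : ℝ) ≤ c * (k * Real.log 2) ^ 2 := by
    unfold hh
    exact Nat.floor_le (by positivity)
  have hw : ((hh c k / 3 : ℕ) : ℝ) ≤ c * (k * Real.log 2) ^ 2 / 3 := by
    have h1 : ((hh c k / 3 : ℕ) : ℝ) ≤ (hh c k : ℝ) / 3 := Nat.cast_div_le
    linarith
  have hwh : hh c k / 3 ≤ hh c k := Nat.div_le_self _ _
  refine ⟨?_, ?_⟩
  · obtain ⟨n, hn, hn2⟩ := hF 0 (by unfold JJ; simp)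
    refine ⟨n, hn, ?_⟩
    unfold UU at hn2
    rw [if_pos rfl, mem_Ico] at hn2
    have h1 : (n : ℝ) ≤ ((2 ^ k + hh c k / 3 : ℕ) : ℝ) := by exact_mod_cast hn2.2.le
    push_cast at h1
    have h2 : ((hh c k / 3 : ℕ) : ℝ) ≤ c * (k * Real.log 2) ^ 2 / 3 := hw
    linarith
  · intro a ha
    have hab := hT ha
    unfold block at hab
    rw [mem_Ico] at hab
    by_cases h1 : a + hh c k < 2 ^ (k + 1)
    · left
      obtain ⟨n, hn, hn2⟩ := hF a (by
        unfold JJ
        rw [mem_insert, mem_insert, mem_Ico]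
        right; right
        omega)
      unfold UU at hn2
      rw [if_neg (by omega), if_neg (by omega), mem_Ioc] at hn2
      refine ⟨n, hn, hn2.1, ?_⟩
      have h2 : (n : ℝ) ≤ ((a + hh c k : ℕ) : ℝ) := by exact_mod_cast hn2.2
      push_cast at h2
      linarith
    · by_cases h2 : a < 2 ^ (k + 1) - hh c k / 3
      · left
        obtain ⟨n, hn, hn2⟩ := hF 1 (by unfold JJ; simp)
        unfold UU at hn2
        rw [if_neg (by norm_num), if_pos rfl, mem_Ico] at hn2
        refine ⟨n, hn, by omega, ?_⟩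
        have h3 : n ≤ a + hh c k := by omega
        have h4 : (n : ℝ) ≤ ((a + hh c k : ℕ) : ℝ) := by exact_mod_cast h3
        push_cast at h4
        linarith
      · right
        have h3 : 2 ^ (k + 1) ≤ a + hh c k / 3 := by omega
        have h4 : ((2 ^ (k + 1) : ℕ) : ℝ) ≤ ((a + hh c k / 3 : ℕ) : ℝ) := by exact_mod_cast h3
        push_cast at h4
        linarith

/-- the probability that there are no long gaps -/
theorem q_low {c : ℝ} (hc : 0 < c) (hc1 : c ≤ 1) : ∀ᶠ k : ℕ in atTop, ∀ (F : Finset ℕ → Prop) [DecidablePred F],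
    (∀ T, FF c k T → F T) →
    Real.exp (-(2 * Real.exp 3 * (2 : ℝ) ^ ((1 - c) * k) + 2)) ≤ ∑ T ∈ (block k).powerset with F T, cramerOn (block k) T := by
  have hl2 := log2_half
  have hl1 := log2_one
  have hl0 : 0 < Real.log 2 := by linarith
  obtain ⟨K, hK⟩ := exists_nat_ge (12 / (c * Real.log 2))
  filter_upwards [eventually_ge_atTop (max (K + 1) 2), ev_cube (show (0 : ℝ) < 1 by norm_num) c] with k hkK hcube F _ hF
  have hk2 : 2 ≤ k := le_trans (le_max_right _ _) hkK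
  have hkK' : K + 1 ≤ k := le_trans (le_max_left _ _) hkK
  have hk2r : (2 : ℝ) ≤ k := by exact_mod_cast hk2
  have hk4 : 4 ≤ 2 ^ k := by
    calc 4 = 2 ^ 2 := by norm_num
      _ ≤ 2 ^ k := Nat.pow_le_pow_right (by norm_num) hk2
  have h11 : 12 ≤ c * Real.log 2 * (k - 1) := by
    rw [div_le_iff₀ (by positivity)] at hK
    have h1 : ((K + 1 : ℕ) : ℝ) ≤ k := by exact_mod_cast hkK'
    push_cast at h1
    have h2 : (K : ℝ) ≤ k - 1 := by linarith
    have h3 := mul_le_mul_of_nonneg_left h2 (show 0 ≤ c * Real.log 2 by positivity)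
    linarith
  -- sizes
  obtain ⟨h, hhd⟩ : ∃ h : ℕ, h = hh c k := ⟨_, rfl⟩
  have hx : (h : ℝ) ≤ c * (k * Real.log 2) ^ 2 := by
    rw [hhd]
    exact Nat.floor_le (by positivity)
  have hx1 : c * (k * Real.log 2) ^ 2 - 1 ≤ h := by
    rw [hhd]
    exact (Nat.sub_one_lt_floor _).le
  have hhk : h ≤ 2 ^ k := by
    have h1 : (h : ℝ) ≤ (2 : ℝ) ^ k := by
      rw [one_mul, Real.rpow_natCast] at hcube
      refine hx.trans (le_trans ?_ hcube)
      apply mul_le_mul_of_nonneg_left _ hc.le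
      have e1 : (k * Real.log 2) ^ 2 ≤ (k : ℝ) ^ 2 := by
        apply pow_le_pow_left₀ (by positivity)
        nlinarith
      nlinarith
    exact_mod_cast h1
  have hden : 0 < ((k : ℝ) + 1) * Real.log 2 := by positivity
  have hexp : c * Real.log 2 * (k - 1) - 2 ≤ h / (((k : ℝ) + 1) * Real.log 2) := by
    rw [le_div_iff₀ hden]
    refine le_trans ?_ hx1
    have e1 : (c * Real.log 2 * (k - 1) - 2) * (((k : ℝ) + 1) * Real.log 2) =
        c * (k * Real.log 2) ^ 2 - c * Real.log 2 ^ 2 - 2 * ((k + 1) * Real.log 2) := by ring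
    rw [e1]
    have e2 : 1 ≤ 2 * (((k : ℝ) + 1) * Real.log 2) := by nlinarith
    have e3 : 0 ≤ c * Real.log 2 ^ 2 := by positivity
    linarith
  obtain ⟨w, hw⟩ : ∃ w : ℕ, w = h / 3 := ⟨_, rfl⟩
  have hwh : w ≤ h := by rw [hw]; exact Nat.div_le_self _ _
  have hw3 : (h : ℝ) / 3 - 1 ≤ w := by
    have h1 : h < 3 * (w + 1) := by omega
    have h2 : (h : ℝ) < ((3 * (w + 1) : ℕ) : ℝ) := by exact_mod_cast h1
    push_cast at h2
    linarith
  have hwexp : 1 ≤ w / (((k : ℝ) + 1) * Real.log 2) := by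
    rw [le_div_iff₀ hden, one_mul]
    refine le_trans ?_ hw3
    have h1 : 10 * (((k : ℝ) + 1) * Real.log 2) ≤ h := by
      rw [← le_div_iff₀ hden]
      linarith
    have h2 : 1 ≤ 2 * (((k : ℝ) + 1) * Real.log 2) := by nlinarith
    linarith
  obtain ⟨e₁, he₁⟩ : ∃ e₁ : ℝ, e₁ = Real.exp (-(h / (((k : ℝ) + 1) * Real.log 2))) := ⟨_, rfl⟩
  obtain ⟨e₂, he₂⟩ : ∃ e₂ : ℝ, e₂ = Real.exp (-(w / (((k : ℝ) + 1) * Real.log 2))) := ⟨_, rfl⟩
  have he₂h : e₂ ≤ 1 / 2 := by
    rw [he₂]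
    have h1 : Real.exp (-(w / (((k : ℝ) + 1) * Real.log 2))) ≤ Real.exp (-1) := Real.exp_le_exp.2 (by linarith)
    have h2 := Real.exp_neg_one_lt_d9
    linarith
  have he₁h : e₁ ≤ 1 / 2 := by
    rw [he₁]
    have h1 : Real.exp (-(h / (((k : ℝ) + 1) * Real.log 2))) ≤ Real.exp (-1) := Real.exp_le_exp.2 (by linarith)
    have h2 := Real.exp_neg_one_lt_d9
    linarith
  have he₁0 : 0 < e₁ := by rw [he₁]; exact Real.exp_pos _
  have he₂0 : 0 < e₂ := by rw [he₂]; exact Real.exp_pos _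
  have hexpin : ∀ x : ℝ, 0 ≤ x → x ≤ 1 / 2 → Real.exp (-(2 * x)) ≤ 1 - x := by
    intro x hx0 hx2
    rw [← Real.le_log_iff_exp_le (by linarith)]
    have h7 := Real.one_sub_inv_le_log_of_pos (show 0 < 1 - x by linarith)
    refine le_trans ?_ h7
    have h8 : (1 - x)⁻¹ ≤ 1 + 2 * x := by
      rw [inv_le_iff_one_le_mul₀ (by linarith)]
      nlinarith
    linarith
  -- the windows
  have hUb : ∀ j ∈ JJ c k, UU c k j ⊆ block k := by
    intro j hj n hn
    unfold block
    rw [mem_Ico]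
    unfold JJ at hj
    rw [mem_insert, mem_insert, mem_Ico, ← hhd] at hj
    unfold UU at hn
    rw [← hhd, ← hw] at hn
    have h2 : 2 ^ (k + 1) = 2 ^ k + 2 ^ k := by ring
    by_cases h0 : j = 0
    · rw [if_pos h0, mem_Ico] at hn
      omega
    · by_cases h1 : j = 1
      · rw [if_neg h0, if_pos h1, mem_Ico] at hn
        omega
      · rw [if_neg h0, if_neg h1, mem_Ioc] at hn
        omega
  have hmain := meet_low hk2 (JJ c k) (UU c k) hUb F (fun T hT => hF T hT)
  refine le_trans ?_ hmain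
  have hprod : ∀ j ∈ JJ c k, ∏ n ∈ UU c k j, (1 - pc n) ≤ Real.exp (-((UU c k j).card / (((k : ℝ) + 1) * Real.log 2))) := by
    intro j hj
    refine le_trans (le_of_eq ?_) (prod_window_le hk2 (hUb j hj))
    exact prod_congr rfl fun n hn => by rw [pc_block hk2 (hUb j hj hn)]
  have hn0 : (0 : ℕ) ∉ insert 1 (Ico (2 ^ k) (2 ^ (k + 1) - hh c k)) := by
    rw [mem_insert, mem_Ico]
    omega
  have hn1 : (1 : ℕ) ∉ Ico (2 ^ k) (2 ^ (k + 1) - hh c k) := by
    rw [mem_Ico]
    omega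
  have hJ0 : (0 : ℕ) ∈ JJ c k := by unfold JJ; simp
  have hJ1 : (1 : ℕ) ∈ JJ c k := by unfold JJ; simp
  have hf0 : Real.exp (-(2 * e₂)) ≤ 1 - ∏ n ∈ UU c k 0, (1 - pc n) := by
    have h1 := hprod 0 hJ0
    have h2 : (UU c k 0).card = w := by
      unfold UU
      rw [if_pos rfl, Nat.card_Ico, ← hhd, ← hw]
      omega
    rw [h2, ← he₂] at h1
    have h3 := hexpin e₂ he₂0.le he₂h
    linarith
  have hf1 : Real.exp (-(2 * e₂)) ≤ 1 - ∏ n ∈ UU c k 1, (1 - pc n) := by
    have h1 := hprod 1 hJ1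
    have h2 : (UU c k 1).card = w := by
      unfold UU
      rw [if_neg (by norm_num), if_pos rfl, Nat.card_Ico, ← hhd, ← hw]
      have h2 : 2 ^ (k + 1) = 2 ^ k + 2 ^ k := by ring
      omega
    rw [h2, ← he₂] at h1
    have h3 := hexpin e₂ he₂0.le he₂h
    linarith
  have hfj : ∀ j ∈ Ico (2 ^ k) (2 ^ (k + 1) - hh c k), Real.exp (-(2 * e₁)) ≤ 1 - ∏ n ∈ UU c k j, (1 - pc n) := by
    intro j hj
    have hjJ : j ∈ JJ c k := by
      unfold JJ
      rw [mem_insert, mem_insert]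
      exact Or.inr (Or.inr hj)
    have h1 := hprod j hjJ
    rw [mem_Ico] at hj
    have h2 : (UU c k j).card = h := by
      unfold UU
      rw [if_neg (by omega), if_neg (by omega), Nat.card_Ioc, ← hhd]
      omega
    rw [h2, ← he₁] at h1
    have h3 := hexpin e₁ he₁0.le he₁h
    linarith
  unfold JJ
  rw [prod_insert hn0, prod_insert hn1]
  have hpr : Real.exp (-(2 * e₁)) ^ (Ico (2 ^ k) (2 ^ (k + 1) - hh c k)).card ≤
      ∏ j ∈ Ico (2 ^ k) (2 ^ (k + 1) - hh c k), (1 - ∏ n ∈ UU c k j, (1 - pc n)) := by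
    rw [← prod_const]
    exact Finset.prod_le_prod (fun _ _ => (Real.exp_pos _).le) hfj
  have hN : ((Ico (2 ^ k) (2 ^ (k + 1) - hh c k)).card : ℝ) ≤ (2 : ℝ) ^ k := by
    have h1 : (Ico (2 ^ k) (2 ^ (k + 1) - hh c k)).card ≤ 2 ^ k := by
      rw [Nat.card_Ico]
      have h2 : 2 ^ (k + 1) = 2 ^ k + 2 ^ k := by ring
      omega
    exact_mod_cast h1
  have hbound : Real.exp (-(2 * Real.exp 3 * (2 : ℝ) ^ ((1 - c) * k) + 2)) ≤
      Real.exp (-(2 * e₂)) * (Real.exp (-(2 * e₂)) * Real.exp (-(2 * e₁)) ^ (Ico (2 ^ k) (2 ^ (k + 1) - hh c k)).card) := by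
    rw [← Real.exp_nat_mul, ← Real.exp_add, ← Real.exp_add]
    apply Real.exp_le_exp.2
    have h1 : ((Ico (2 ^ k) (2 ^ (k + 1) - hh c k)).card : ℝ) * (2 * e₁) ≤ (2 : ℝ) ^ k * (2 * e₁) :=
      mul_le_mul_of_nonneg_right hN (by positivity)
    have h2 : (2 : ℝ) ^ k * e₁ ≤ Real.exp 3 * (2 : ℝ) ^ ((1 - c) * k) := by
      have e1 : e₁ ≤ Real.exp 3 * (2 : ℝ) ^ (-(c * k)) := by
        rw [he₁, Real.rpow_def_of_pos (by norm_num), ← Real.exp_add]
        apply Real.exp_le_exp.2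
        have : c * Real.log 2 ≤ 1 := by nlinarith
        nlinarith
      have e2 : (2 : ℝ) ^ k = (2 : ℝ) ^ ((k : ℝ)) := by rw [Real.rpow_natCast]
      calc (2 : ℝ) ^ k * e₁ ≤ (2 : ℝ) ^ k * (Real.exp 3 * (2 : ℝ) ^ (-(c * k))) :=
            mul_le_mul_of_nonneg_left e1 (by positivity)
        _ = Real.exp 3 * ((2 : ℝ) ^ (k : ℝ) * (2 : ℝ) ^ (-(c * k))) := by rw [e2]; ring
        _ = Real.exp 3 * (2 : ℝ) ^ ((1 - c) * k) := by
            rw [← Real.rpow_add (by norm_num)]
            congr 2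
            ring
    linarith
  refine hbound.trans ?_
  refine mul_le_mul hf0 (mul_le_mul hf1 hpr (by positivity) ((Real.exp_pos _).le.trans hf1)) (by positivity)
    ((Real.exp_pos _).le.trans hf0)

theorem t_GHA : J_GHA := by
  classical
  intro c hc hc1
  set q : ℕ → ℝ := fun k => ∑ T ∈ (block k).powerset with FF c k T, cramerOn (block k) T with hq
  refine ⟨fun k T => if 0 < q k then (if FF c k T then cramerOn (block k) T / q k else 0) else cramerOn (block k) T, ?_, ?_, ?_⟩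
  · intro k hk
    have hpos : ∀ T ∈ (block k).powerset, 0 < cramerOn (block k) T := fun T hT =>
      cramerOn_pos (fun n hn => three_le_of_mem_block hk hn) (mem_powerset.1 hT)
    by_cases hqk : 0 < q k
    · simp only [hqk, if_true]
      refine ⟨fun T hT => ?_, ?_⟩
      · split_ifs
        · have := hpos T hT
          positivity
        · exact le_rfl
      · rw [← sum_filter, ← sum_div]
        exact div_self hqk.ne'
    · simp only [hqk, if_false]
      exact ⟨fun T hT => (hpos T hT).le, sum_cramerOn _⟩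
  · intro ε hε
    filter_upwards [q_low hc hc1, ev_cube hε (2 * Real.exp 3 + 2), eventually_ge_atTop 2] with k hlow hcube hk
    have hpos : ∀ T ∈ (block k).powerset, 0 < cramerOn (block k) T := fun T hT =>
      cramerOn_pos (fun n hn => three_le_of_mem_block hk hn) (mem_powerset.1 hT)
    have h1 : Real.exp (-(2 * Real.exp 3 * (2 : ℝ) ^ ((1 - c) * k) + 2)) ≤ q k := hlow (FF c k) (fun T hT => hT)
    have hqk : 0 < q k := lt_of_lt_of_le (Real.exp_pos _) h1
    simp only [hqk, if_true]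
    have h2 : ∀ T ∈ (block k).powerset, (if FF c k T then cramerOn (block k) T / q k else 0) *
        Real.log ((if FF c k T then cramerOn (block k) T / q k else 0) / cramerOn (block k) T) =
        if FF c k T then cramerOn (block k) T / q k * (-Real.log (q k)) else 0 := by
      intro T hT
      have h3 := hpos T hT
      by_cases hFT : FF c k T
      · simp only [hFT, if_true]
        congr 1
        rw [div_right_comm, div_self h3.ne', one_div, Real.log_inv]
      · simp only [hFT, if_false, zero_mul]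
    rw [sum_congr rfl h2, ← sum_filter, ← sum_mul, ← sum_div]
    have h3 : (∑ T ∈ (block k).powerset with FF c k T, cramerOn (block k) T) / q k = 1 := div_self hqk.ne'
    rw [h3, one_mul]
    have h4 : -(2 * Real.exp 3 * (2 : ℝ) ^ ((1 - c) * k) + 2) ≤ Real.log (q k) := by
      rw [Real.le_log_iff_exp_le hqk]
      exact h1
    have h5 : (1 : ℝ) ≤ (2 : ℝ) ^ ((1 - c) * k) := Real.one_le_rpow (by norm_num) (mul_nonneg (by linarith) (Nat.cast_nonneg k))
    have h6 : (1 - c + ε) * (k : ℝ) = (1 - c) * k + ε * k := by ring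
    rw [h6, Real.rpow_add (by norm_num)]
    have h7 : 2 * Real.exp 3 + 2 ≤ (2 : ℝ) ^ (ε * k) := by
      refine le_trans ?_ hcube
      have e1 : (1 : ℝ) ≤ ((k : ℝ) + 1) ^ 3 := one_le_pow₀ (by have : (0 : ℝ) ≤ k := Nat.cast_nonneg k; linarith)
      have e2 : 0 ≤ 2 * Real.exp 3 + 2 := by positivity
      calc 2 * Real.exp 3 + 2 = (2 * Real.exp 3 + 2) * 1 := (mul_one _).symm
        _ ≤ _ := mul_le_mul_of_nonneg_left e1 e2
    have h8 : (2 * Real.exp 3 + 2) * (2 : ℝ) ^ ((1 - c) * k) ≤ (2 : ℝ) ^ (ε * k) * (2 : ℝ) ^ ((1 - c) * k) :=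
      mul_le_mul_of_nonneg_right h7 (by positivity)
    linarith
  · filter_upwards [q_low hc hc1, eventually_ge_atTop 2] with k hlow hk T hT hne
    have h1 : Real.exp (-(2 * Real.exp 3 * (2 : ℝ) ^ ((1 - c) * k) + 2)) ≤ q k := hlow (FF c k) (fun T hT => hT)
    have hqk : 0 < q k := lt_of_lt_of_le (Real.exp_pos _) h1
    simp only [hqk, if_true] at hne
    have hFT : FF c k T := by
      by_contra h
      simp only [h, if_false, ne_eq, not_true_eq_false] at hne
    exact nogap_of hc hk (mem_powerset.1 hT) hFT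

end Pool.Agent.Q184.LG
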