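import Pool.Agent.Q184.LG.GUP
import Pool.Agent.Q112.LE.Expo

set_option autoImplicit false

/-! Project LG (helper120), job GLO: few long gaps are unlikely in the model. -/

namespace Pool.Agent.Q184.LG

open Finset MeasureTheory Filter Pool.Agent.Q120.ET Pool.Agent.Q120.GM Pool.Agent.Q120.GE Pool.Agent.Q120.SI Pool.Agent.Q120.LG
open Pool.Agent.Q112.LE
open scoped Topology

section

variable {Ω : Type*} [MeasurableSpace Ω] {μ : Measure Ω} [IsProbabilityMeasure μ] {A : Ω → Set ℕ}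

/-- the event that `a ∈ A` and `(a, a + h]` is free -/
def GE (A : Ω → Set ℕ) (h a : ℕ) : Set Ω := {ω | a ∈ A ω} ∩ free A (Ioc a (a + h))

omit [MeasurableSpace Ω] in
theorem GE_F (h a : ℕ) : MeasurableSet[F A (↑(Icc a (a + h)) : Set ℕ)] (GE A h a) := by
  unfold GE
  refine MeasurableSet.inter (F_mem (by simp)) (F_free fun n hn => ?_)
  rw [mem_Ioc] at hn
  simp only [coe_Icc, Set.mem_Icc]
  omega

theorem GE_real (hA : IsModel μ pc A) (h a : ℕ) : μ.real (GE A h a) = pc a * μ.real (free A (Ioc a (a + h))) := by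
  unfold GE
  rw [indep_real hA (S := {a}) (T := (↑(Ioc a (a + h)) : Set ℕ)) ?_ (F_mem (Set.mem_singleton a)) (F_free fun n hn => hn)]
  · rw [hA.prob a]
  · rw [Set.disjoint_left]
    intro n hn hn'
    rw [Set.mem_singleton_iff] at hn
    subst hn
    simp at hn'

theorem GE_low {k : ℕ} (hk : 3 ≤ k) (hA : IsModel μ pc A) {h a : ℕ} (ha : 2 ^ k ≤ a) (hah : a + h < 2 ^ (k + 1)) {δ : ℝ} (hδ : 0 < δ)
    (hδk : 1 + δ ≤ δ * (k * Real.log 2)) :
    1 / ((k + 1) * Real.log 2) * Real.exp (-((1 + δ) * h / (k * Real.log 2))) ≤ μ.real (GE A h a) := by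
  have hl0 : 0 < Real.log 2 := Real.log_pos (by norm_num)
  have hk2 : 2 ≤ k := by omega
  have hab : a ∈ block k := by
    unfold block
    rw [mem_Ico]
    omega
  have hW : Ioc a (a + h) ⊆ block k := by
    intro n hn
    unfold block
    rw [mem_Ioc] at hn
    rw [mem_Ico]
    omega
  rw [GE_real hA, real_free hA]
  have h1 : ∏ n ∈ Ioc a (a + h), (1 - pc n) = ∏ n ∈ Ioc a (a + h), (1 - 1 / Real.log n) :=
    prod_congr rfl fun n hn => by rw [pc_block hk2 (hW hn)]
  rw [h1]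
  have h2 := le_prod_window hk hW hδ hδk
  rw [Nat.card_Ioc, Nat.add_sub_cancel_left] at h2
  have h3 : 1 / (((k : ℝ) + 1) * Real.log 2) ≤ pc a := by
    rw [pc_block hk2 hab]
    have ha3 := three_le_of_mem_block hk2 hab
    have h4 := one_lt_log ha3
    apply one_div_le_one_div_of_le (by linarith)
    have h5 : (a : ℝ) ≤ (2 : ℝ) ^ (k + 1) := by
      have : a ≤ 2 ^ (k + 1) := by omega
      exact_mod_cast this
    have h6 : (0 : ℝ) < a := by
      have : 0 < a := by omega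
      exact_mod_cast this
    have := Real.log_le_log h6 h5
    rw [Real.log_pow] at this
    push_cast at this
    exact this
  exact mul_le_mul h3 h2 (Real.exp_pos _).le ((by positivity : (0 : ℝ) ≤ 1 / (((k : ℝ) + 1) * Real.log 2)).trans h3)

theorem num_le_ngb {k h J : ℕ} (hJ : J * (h + 1) ≤ 2 ^ k) (ω : Ω) :
    num (range J) (fun j => GE A h (2 ^ k + j * (h + 1))) ω ≤ (ngb (tr A (block k) ω) k h : ℝ) := by
  classical
  unfold num
  have h1 : ∑ j ∈ range J, (GE A h (2 ^ k + j * (h + 1))).indicator (fun _ => (1 : ℝ)) ω =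
      (((range J).filter fun j => ω ∈ GE A h (2 ^ k + j * (h + 1))).card : ℝ) := by
    rw [card_filter, Nat.cast_sum]
    refine sum_congr rfl fun j _ => ?_
    by_cases hj : ω ∈ GE A h (2 ^ k + j * (h + 1))
    · rw [Set.indicator_of_mem hj, if_pos hj, Nat.cast_one]
    · rw [Set.indicator_of_notMem hj, if_neg hj, Nat.cast_zero]
  rw [h1]
  have hinj : Set.InjOn (fun j : ℕ => 2 ^ k + j * (h + 1)) (((range J).filter fun j => ω ∈ GE A h (2 ^ k + j * (h + 1)) : Finset ℕ) : Set ℕ) := by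
    intro i _ j _ hij
    simp only at hij
    have h2 : i * (h + 1) = j * (h + 1) := by omega
    exact Nat.eq_of_mul_eq_mul_right (by omega) h2
  rw [← card_image_of_injOn hinj]
  unfold ngb
  have h3 : ((range J).filter fun j => ω ∈ GE A h (2 ^ k + j * (h + 1))).image (fun j => 2 ^ k + j * (h + 1)) ⊆
      (block k).filter (fun a => a ∈ tr A (block k) ω ∧ a + h < 2 ^ (k + 1) ∧ ∀ n ∈ tr A (block k) ω, ¬ (a < n ∧ n ≤ a + h)) := by
    intro a ha
    rw [mem_image] at ha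
    obtain ⟨j, hj, rfl⟩ := ha
    rw [mem_filter, mem_range] at hj
    have h4 : (j + 1) * (h + 1) ≤ J * (h + 1) := Nat.mul_le_mul_right _ hj.1
    have h5 : (j + 1) * (h + 1) = j * (h + 1) + h + 1 := by ring
    have h6 : 2 ^ (k + 1) = 2 ^ k + 2 ^ k := by ring
    have hab : 2 ^ k + j * (h + 1) ∈ block k := by
      unfold block
      rw [mem_Ico]
      omega
    rw [mem_filter]
    refine ⟨hab, mem_tr.2 ⟨hab, hj.2.1⟩, by omega, fun n hn hn2 => ?_⟩
    exact hj.2.2 n (mem_Ioc.2 hn2) (mem_tr.1 hn).2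
  exact_mod_cast card_le_card h3

theorem mutual_GE (hA : IsModel μ pc A) (k h J : ℕ) :
    Mutual μ (range J) (fun j => GE A h (2 ^ k + j * (h + 1))) := by
  classical
  intro T _
  refine indep_many hA T (fun j => (↑(Icc (2 ^ k + j * (h + 1)) (2 ^ k + j * (h + 1) + h)) : Set ℕ)) ?_ _ (fun j _ => GE_F h _)
  intro i _ j _ hij
  rw [Set.disjoint_left]
  intro n hn hn'
  simp only [coe_Icc, Set.mem_Icc] at hn hn'
  rcases Nat.lt_or_gt_of_ne hij with h1 | h1
  · have h2 : (i + 1) * (h + 1) ≤ j * (h + 1) := Nat.mul_le_mul_right _ h1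
    have h3 : (i + 1) * (h + 1) = i * (h + 1) + h + 1 := by ring
    omega
  · have h2 : (j + 1) * (h + 1) ≤ i * (h + 1) := Nat.mul_le_mul_right _ h1
    have h3 : (j + 1) * (h + 1) = j * (h + 1) + h + 1 := by ring
    omega

end

/-- exponentials dominate cubes -/
theorem ev_cube {ε : ℝ} (hε : 0 < ε) (C : ℝ) : ∀ᶠ k : ℕ in atTop, C * ((k : ℝ) + 1) ^ 3 ≤ (2 : ℝ) ^ (ε * k) := by
  have hb : 1 < (2 : ℝ) ^ ε := Real.one_lt_rpow (by norm_num) hε
  have h1 := tendsto_pow_const_div_const_pow_of_one_lt 3 hb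
  have h2 : ∀ᶠ k : ℕ in atTop, (k : ℝ) ^ 3 / ((2 : ℝ) ^ ε) ^ k < 1 / (8 * (|C| + 1)) :=
    h1.eventually (gt_mem_nhds (by positivity))
  filter_upwards [h2, eventually_ge_atTop 1] with k hk hk1
  have hk1r : (1 : ℝ) ≤ k := by exact_mod_cast hk1
  have hp : 0 < ((2 : ℝ) ^ ε) ^ k := by positivity
  rw [div_lt_iff₀ hp] at hk
  have e1 : (2 : ℝ) ^ (ε * k) = ((2 : ℝ) ^ ε) ^ k := by
    rw [Real.rpow_mul (by norm_num), Real.rpow_natCast]
  rw [e1]
  have e2 : ((k : ℝ) + 1) ^ 3 ≤ 8 * k ^ 3 := by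
    have : ((k : ℝ) + 1) ^ 3 ≤ (2 * k) ^ 3 := pow_le_pow_left₀ (by linarith) (by linarith) 3
    calc ((k : ℝ) + 1) ^ 3 ≤ (2 * k) ^ 3 := this
      _ = 8 * k ^ 3 := by ring
  have hC := le_abs_self C
  calc C * ((k : ℝ) + 1) ^ 3 ≤ (|C| + 1) * (8 * k ^ 3) := by
        apply mul_le_mul (by linarith) e2 (by positivity) (by positivity)
    _ ≤ (|C| + 1) * (8 * (1 / (8 * (|C| + 1)) * ((2 : ℝ) ^ ε) ^ k)) := by
        have := hk.le
        gcongr
    _ = ((2 : ℝ) ^ ε) ^ k := by field_simp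

theorem t_GLO : J_GLO := by
  intro c β hc hβ
  have hl2 := log2_half
  have hl1 := log2_one
  have hl0 : 0 < Real.log 2 := by linarith
  set D : ℝ := 1 - c - β with hD
  have hD0 : 0 < D := by rw [hD]; linarith
  set δ : ℝ := D / (2 * c) with hδ
  have hδ0 : 0 < δ := by rw [hδ]; positivity
  have hδc : (1 + δ) * c = c + D / 2 := by
    rw [hδ]; field_simp
  -- the constant
  set C₁ : ℝ := Real.exp ((1 + δ) * (3 * c + 1)) with hC₁
  have hC₁0 : 0 < C₁ := Real.exp_pos _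
  obtain ⟨K, hK⟩ := exists_nat_ge ((1 + δ) / (δ * Real.log 2))
  filter_upwards [ev_cube (show 0 < D / 2 by linarith) (8 * (c + 2) * C₁), ev_cube (show (0 : ℝ) < 1 by norm_num) (2 * (c + 2)),
    eventually_ge_atTop (max K 3)] with k hk hk1 hkK Ω _ μ _ A hA
  have hk3 : 3 ≤ k := le_trans (le_max_right _ _) hkK
  have hkK' : K ≤ k := le_trans (le_max_left _ _) hkK
  have hk3r : (3 : ℝ) ≤ k := by exact_mod_cast hk3
  have hk0 : (0 : ℝ) < k := by linarith
  have hδk : 1 + δ ≤ δ * (k * Real.log 2) := by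
    have h1 : 0 < δ * Real.log 2 := by positivity
    rw [div_le_iff₀ h1] at hK
    have h2 : (K : ℝ) ≤ k := by exact_mod_cast hkK'
    have h3 := mul_le_mul_of_nonneg_right h2 h1.le
    linarith
  obtain ⟨x, hx⟩ : ∃ x : ℝ, x = (2 : ℝ) ^ (β * k) := ⟨_, rfl⟩
  rw [← hx]
  have hx0 : 0 < x := by rw [hx]; positivity
  obtain ⟨h, hh⟩ : ∃ h : ℕ, h = ⌈c * (((k : ℝ) + 1) * Real.log 2) ^ 2⌉₊ := ⟨_, rfl⟩
  rw [← hh]
  have hhle : (h : ℝ) ≤ c * (((k : ℝ) + 1) * Real.log 2) ^ 2 + 1 := by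
    rw [hh]
    exact (Nat.ceil_lt_add_one (by positivity)).le
  have hh1 : (h : ℝ) + 1 ≤ (c + 2) * ((k : ℝ) + 1) ^ 2 := by
    have e1 : (((k : ℝ) + 1) * Real.log 2) ^ 2 ≤ ((k : ℝ) + 1) ^ 2 := by
      rw [mul_pow]
      have : Real.log 2 ^ 2 ≤ 1 := by nlinarith
      nlinarith [sq_nonneg ((k : ℝ) + 1)]
    have e2 : c * (((k : ℝ) + 1) * Real.log 2) ^ 2 ≤ c * ((k : ℝ) + 1) ^ 2 := mul_le_mul_of_nonneg_left e1 hc.le
    have e3 : 2 ≤ 2 * ((k : ℝ) + 1) ^ 2 := by nlinarith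
    linarith
  obtain ⟨J, hJ⟩ : ∃ J : ℕ, J = 2 ^ k / (h + 1) := ⟨_, rfl⟩
  have hJ1 : J * (h + 1) ≤ 2 ^ k := by rw [hJ]; exact Nat.div_mul_le_self _ _
  have hp2 : (0 : ℝ) < (2 : ℝ) ^ k := by positivity
  have hJ2 : (2 : ℝ) ^ k / (2 * ((c + 2) * ((k : ℝ) + 1) ^ 2)) ≤ J := by
    have e1 : (2 : ℝ) ^ k < (J + 1) * (h + 1) := by
      have : 2 ^ k < (J + 1) * (h + 1) := by
        rw [hJ, mul_comm]
        exact Nat.lt_mul_div_succ _ (Nat.succ_pos h)
      exact_mod_cast this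
    have e2 : (1 : ℝ) ≤ J := by
      by_contra hcon
      have : J = 0 := by
        by_contra h'
        exact hcon (by exact_mod_cast Nat.one_le_iff_ne_zero.2 h')
      rw [this, Nat.cast_zero, zero_add, one_mul] at e1
      have e3 : 2 * (c + 2) * ((k : ℝ) + 1) ^ 3 ≤ (2 : ℝ) ^ k := by
        have := hk1
        rwa [one_mul, Real.rpow_natCast] at this
      have e4 : (c + 2) * ((k : ℝ) + 1) ^ 2 ≤ 2 * (c + 2) * ((k : ℝ) + 1) ^ 3 := by
        have : 0 ≤ (c + 2) * ((k : ℝ) + 1) ^ 2 := by positivity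
        have e5 : 2 * (c + 2) * ((k : ℝ) + 1) ^ 3 = (c + 2) * ((k : ℝ) + 1) ^ 2 * (2 * (k + 1)) := by ring
        rw [e5]
        nlinarith
      linarith
    rw [div_le_iff₀ (by positivity)]
    have e3 : ((J : ℝ) + 1) * (h + 1) ≤ (2 * J) * ((c + 2) * ((k : ℝ) + 1) ^ 2) := by
      apply mul_le_mul (by linarith) hh1 (by positivity) (by positivity)
    linarith
  -- one event
  have hone : ∀ j ∈ range J, Real.exp (-((c + D / 2) * (k * Real.log 2))) / (C₁ * (k + 1)) ≤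
      μ.real (GE A h (2 ^ k + j * (h + 1))) := by
    intro j hj
    rw [mem_range] at hj
    have h4 : (j + 1) * (h + 1) ≤ J * (h + 1) := Nat.mul_le_mul_right _ hj
    have h5 : (j + 1) * (h + 1) = j * (h + 1) + h + 1 := by ring
    have h6 : 2 ^ (k + 1) = 2 ^ k + 2 ^ k := by ring
    refine le_trans ?_ (GE_low hk3 hA (by omega) (by omega) hδ0 hδk)
    have e1 : (1 + δ) * h / (k * Real.log 2) ≤ (c + D / 2) * (k * Real.log 2) + (1 + δ) * (3 * c + 1) := by
      rw [div_le_iff₀ (by positivity), ← hδc]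
      have e2 : (h : ℝ) ≤ c * (k * Real.log 2) * (k * Real.log 2) + (3 * c + 1) * (k * Real.log 2) := by
        refine hhle.trans ?_
        have f1 : 1 ≤ k * Real.log 2 := by nlinarith
        have f2 : c * (((k : ℝ) + 1) * Real.log 2) ^ 2 = c * (k * Real.log 2) * (k * Real.log 2) +
            c * ((2 * Real.log 2) * (k * Real.log 2)) + c * (Real.log 2 * Real.log 2) := by ring
        have f3 : c * ((2 * Real.log 2) * (k * Real.log 2)) ≤ c * (2 * (k * Real.log 2)) := by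
          apply mul_le_mul_of_nonneg_left _ hc.le
          apply mul_le_mul_of_nonneg_right (by linarith) (by positivity)
        have f4 : c * (Real.log 2 * Real.log 2) ≤ c * (k * Real.log 2) := by
          apply mul_le_mul_of_nonneg_left _ hc.le
          apply mul_le_mul_of_nonneg_right (by linarith) (by positivity)
        rw [f2]
        linarith
      have e3 := mul_le_mul_of_nonneg_left e2 (show 0 ≤ 1 + δ by linarith)
      linarith
    have e4 : 1 / ((k + 1 : ℝ)) ≤ 1 / (((k : ℝ) + 1) * Real.log 2) := by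
      apply one_div_le_one_div_of_le (by positivity)
      nlinarith
    calc Real.exp (-((c + D / 2) * (k * Real.log 2))) / (C₁ * (k + 1)) =
          1 / ((k : ℝ) + 1) * Real.exp (-((c + D / 2) * (k * Real.log 2) + (1 + δ) * (3 * c + 1))) := by
          rw [neg_add, Real.exp_add, Real.exp_neg ((1 + δ) * (3 * c + 1)), ← hC₁]
          field_simp
      _ ≤ 1 / (((k : ℝ) + 1) * Real.log 2) * Real.exp (-((1 + δ) * h / (k * Real.log 2))) := by
          apply mul_le_mul e4 _ (Real.exp_pos _).le (by positivity)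
          apply Real.exp_le_exp.2
          linarith
  have hM : 4 * x ≤ ∑ j ∈ range J, μ.real (GE A h (2 ^ k + j * (h + 1))) := by
    have e1 := Finset.sum_le_sum hone
    rw [sum_const, card_range, nsmul_eq_mul] at e1
    refine le_trans ?_ e1
    have e2 : 0 ≤ Real.exp (-((c + D / 2) * (k * Real.log 2))) / (C₁ * ((k : ℝ) + 1)) := by positivity
    refine le_trans ?_ (mul_le_mul_of_nonneg_right hJ2 e2)
    have e3 : Real.exp (-((c + D / 2) * (k * Real.log 2))) = (2 : ℝ) ^ (-(c + D / 2) * k) := by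
      rw [Real.rpow_def_of_pos (by norm_num)]
      congr 1
      ring
    have e4 : (2 : ℝ) ^ k = (2 : ℝ) ^ ((k : ℝ)) := by rw [Real.rpow_natCast]
    rw [div_mul_div_comm, le_div_iff₀ (by positivity), e3, e4, ← Real.rpow_add (by norm_num)]
    have e5 : (k : ℝ) + -(c + D / 2) * k = β * k + D / 2 * k := by rw [hD]; ring
    rw [e5, Real.rpow_add (by norm_num), ← hx]
    calc 4 * x * (2 * ((c + 2) * ((k : ℝ) + 1) ^ 2) * (C₁ * (k + 1))) = x * (8 * (c + 2) * C₁ * ((k : ℝ) + 1) ^ 3) := by ring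
      _ ≤ x * (2 : ℝ) ^ (D / 2 * k) := mul_le_mul_of_nonneg_left hk hx0.le
  have htail := tail_down (μ := μ) (J := range J) (G := fun j => GE A h (2 ^ k + j * (h + 1)))
    (fun j _ => F_le hA _ _ (GE_F h _)) (mutual_GE hA k h J) (l := 1) (by norm_num) x
  have hsub : {ω | (ngb (tr A (block k) ω) k h : ℝ) ≤ x} ⊆ {ω | num (range J) (fun j => GE A h (2 ^ k + j * (h + 1))) ω ≤ x} :=
    fun ω hω => (num_le_ngb hJ1 ω).trans hω
  refine (measureReal_mono hsub (measure_ne_top _ _)).trans (htail.trans ?_)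
  apply Real.exp_le_exp.2
  have e1 : Real.exp (-1) ≤ 1 / 2 := by
    have := Real.exp_neg_one_lt_d9
    linarith
  have e2 : (Real.exp (-1) - 1) * ∑ a ∈ range J, μ.real (GE A h (2 ^ k + a * (h + 1))) ≤ (-(1 / 2)) * (4 * x) := by
    have f1 : (Real.exp (-1) - 1) * ∑ a ∈ range J, μ.real (GE A h (2 ^ k + a * (h + 1))) ≤
        (Real.exp (-1) - 1) * (4 * x) := mul_le_mul_of_nonpos_left hM (by linarith)
    have f2 : (Real.exp (-1) - 1) * (4 * x) ≤ (-(1 / 2)) * (4 * x) :=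
      mul_le_mul_of_nonneg_right (by linarith) (by positivity)
    exact f1.trans f2
  linarith

end Pool.Agent.Q184.LG
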